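import Pool.Agent.H295R2.SI.Defs

/-! Task T12 of the short interval project: the pair sum on short intervals (adapted from
`Pool/Agent/H370R2/PC.lean`). -/

open Complex Filter Topology Set MeasureTheory
open scoped BigOperators ComplexConjugate

namespace H613SI

open H370 H295SI

lemma gauss01' (b : ℝ) (hb : 0 < b) :
    ∫ α in (0 : ℝ)..1, Real.exp (-b * α ^ 2) ≤ Real.sqrt (Real.pi / b) / 2 := by
  rw [← integral_gaussian_Ioi b, intervalIntegral.integral_of_le zero_le_one]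
  apply setIntegral_mono_set
  · exact (integrable_exp_neg_mul_sq hb).integrableOn
  · exact Eventually.of_forall fun x => (Real.exp_pos _).le
  · exact Eventually.of_forall fun x hx => hx.1

lemma exp_aux (b α : ℝ) : Real.exp (2 * (b * α) - (b * α) ^ 2 / 2) ≤
    Real.exp 4 * Real.exp (-(b ^ 2 / 4) * α ^ 2) := by
  rw [← Real.exp_add]
  apply Real.exp_le_exp.mpr
  nlinarith [sq_nonneg (b * α / 2 - 2)]

lemma cube_aux (θ : ℝ) (h0 : 0 ≤ θ) (h1 : θ ≤ 1) : (1 + θ) ^ 3 ≤ 1 + 7 * θ := by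
  nlinarith [mul_nonneg h0 h0, mul_nonneg (mul_nonneg h0 h0) (sub_nonneg.mpr h1),
    mul_nonneg h0 (sub_nonneg.mpr h1)]

lemma conv_cont {R : ℝ → ℝ} (hR : Conv R) : Continuous R := by
  obtain ⟨K, hK, h⟩ := hR.lip
  have : LipschitzWith ⟨K, hK.le⟩ R := LipschitzWith.of_dist_le_mul fun x y => by
    rw [Real.dist_eq, Real.dist_eq]
    exact h x y
  exact this.continuous

lemma conv_le {R : ℝ → ℝ} (hR : Conv R) (α : ℝ) (hα : 0 ≤ α) : R α ≤ R 0 :=
  hR.anti (Set.mem_Ici.2 le_rfl) (Set.mem_Ici.2 hα) hα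

lemma a1_aux {R : ℝ → ℝ} (hR : Conv R) (b : ℝ) (hb : 0 < b) :
    ∫ α in (0 : ℝ)..1, R α * Real.exp (-(b * α) ^ 2) ≤ R 0 * (Real.sqrt Real.pi / (2 * b)) := by
  have hRc := conv_cont hR
  have hR0 : 0 ≤ R 0 := hR.nonneg 0
  calc ∫ α in (0 : ℝ)..1, R α * Real.exp (-(b * α) ^ 2) ≤
      ∫ α in (0 : ℝ)..1, R 0 * Real.exp (-(b ^ 2) * α ^ 2) := by
        refine intervalIntegral.integral_mono_on zero_le_one
          ((by fun_prop : Continuous fun α : ℝ =>
            R α * Real.exp (-(b * α) ^ 2)).intervalIntegrable _ _)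
          ((by fun_prop : Continuous fun α : ℝ =>
            R 0 * Real.exp (-(b ^ 2) * α ^ 2)).intervalIntegrable _ _) fun α hα => ?_
        have h1 := conv_le hR α hα.1
        have h2 : -(b * α) ^ 2 = -(b ^ 2) * α ^ 2 := by ring
        rw [h2]
        gcongr
    _ = R 0 * ∫ α in (0 : ℝ)..1, Real.exp (-(b ^ 2) * α ^ 2) :=
        intervalIntegral.integral_const_mul _ _
    _ ≤ R 0 * (Real.sqrt (Real.pi / b ^ 2) / 2) := by
        gcongr
        exact gauss01' (b ^ 2) (by positivity)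
    _ = _ := by
        rw [Real.sqrt_div Real.pi_pos.le, Real.sqrt_sq hb.le]
        field_simp

lemma a2_aux {R : ℝ → ℝ} (hR : Conv R) (b : ℝ) (hb : 0 < b) :
    ∫ α in (0 : ℝ)..1, R α * Real.exp (2 * (b * α) - (b * α) ^ 2 / 2) ≤
        R 0 * (Real.exp 4 * Real.sqrt Real.pi) / b := by
  have hRc := conv_cont hR
  have hR0 : 0 ≤ R 0 := hR.nonneg 0
  calc ∫ α in (0 : ℝ)..1, R α * Real.exp (2 * (b * α) - (b * α) ^ 2 / 2) ≤
      ∫ α in (0 : ℝ)..1, R 0 * Real.exp 4 * Real.exp (-(b ^ 2 / 4) * α ^ 2) := by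
        refine intervalIntegral.integral_mono_on zero_le_one
          ((by fun_prop : Continuous fun α : ℝ =>
            R α * Real.exp (2 * (b * α) - (b * α) ^ 2 / 2)).intervalIntegrable _ _)
          ((by fun_prop : Continuous fun α : ℝ =>
            R 0 * Real.exp 4 * Real.exp (-(b ^ 2 / 4) * α ^ 2)).intervalIntegrable _ _)
          fun α hα => ?_
        have h1 := conv_le hR α hα.1
        have h2 := exp_aux b α
        calc R α * Real.exp (2 * (b * α) - (b * α) ^ 2 / 2) ≤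
            R 0 * (Real.exp 4 * Real.exp (-(b ^ 2 / 4) * α ^ 2)) := by gcongr
          _ = _ := by ring
    _ = R 0 * Real.exp 4 * ∫ α in (0 : ℝ)..1, Real.exp (-(b ^ 2 / 4) * α ^ 2) :=
        intervalIntegral.integral_const_mul _ _
    _ ≤ R 0 * Real.exp 4 * (Real.sqrt (Real.pi / (b ^ 2 / 4)) / 2) := by
        gcongr
        exact gauss01' (b ^ 2 / 4) (by positivity)
    _ = _ := by
        have : b ^ 2 / 4 = (b / 2) ^ 2 := by ring
        rw [this, Real.sqrt_div Real.pi_pos.le, Real.sqrt_sq (by positivity)]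
        field_simp

lemma a3_aux (h5 : LamSmooth) {R : ℝ → ℝ} (hR : Conv R) : ∃ C : ℝ, 0 < C ∧ ∀ b : ℝ, 1 ≤ b →
    ∫ α in (0 : ℝ)..1, R α * VV (b * α) ≤
      Real.sqrt Real.pi * b * (∫ α in (0 : ℝ)..1, α * R α) + C := by
  obtain ⟨C4, hC4, hlam⟩ := h5 R hR
  refine ⟨C4, hC4, fun b hb => ?_⟩
  have hb0 : 0 < b := by linarith
  have h1 := hlam b hb
  have h2 : ∫ α in (0 : ℝ)..1, R α * VV (b * α) =
      b⁻¹ * ∫ u in (0 : ℝ)..b, R (u / b) * VV u := by
    have h3 := intervalIntegral.integral_comp_mul_left (a := (0 : ℝ)) (b := 1)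
      (fun u => R (u / b) * VV u) (c := b) hb0.ne'
    rw [mul_zero, mul_one, smul_eq_mul] at h3
    rw [← h3]
    refine intervalIntegral.integral_congr fun α _ => ?_
    show R α * VV (b * α) = R (b * α / b) * VV (b * α)
    rw [mul_div_cancel_left₀ _ hb0.ne']
  rw [h2]
  set I1 := ∫ α in (0 : ℝ)..1, α * R α
  calc b⁻¹ * ∫ u in (0 : ℝ)..b, R (u / b) * VV u ≤
      b⁻¹ * (Real.sqrt Real.pi * b ^ 2 * I1 + C4 * b) := by
        gcongr
    _ = _ := by field_simp

lemma ev_pow (h : ℝ) (hh : 0 < h) : ∀ᶠ T : ℝ in atTop, (Real.log T) ^ 2 ≤ T ^ h ∧ 3 ≤ T ^ h := by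
  have h1 := (isLittleO_log_rpow_rpow_atTop (2 : ℝ) hh).bound (zero_lt_one)
  have h2 := (tendsto_rpow_atTop hh).eventually_ge_atTop 3
  filter_upwards [h1, h2, eventually_ge_atTop (1 : ℝ)] with T h3 h4 h5
  refine ⟨?_, h4⟩
  rw [one_mul, Real.norm_eq_abs, Real.norm_eq_abs, abs_of_nonneg (Real.rpow_nonneg (by linarith) h),
    Real.rpow_two, abs_of_nonneg (sq_nonneg _)] at h3
  exact h3

lemma nn_aux (C η H L : ℝ) (hC : 0 < C) (hH : 0 ≤ H) (hη : 0 < η) (hL : 2 * C / η ≤ L)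
    (hLH : L ^ 2 ≤ H) : C * (H + L ^ 2) ≤ η * (H * L) := by
  have h1 : 2 * C ≤ L * η := (div_le_iff₀ hη).1 hL
  calc C * (H + L ^ 2) ≤ C * (H + H) := by gcongr
    _ = 2 * C * H := by ring
    _ ≤ L * η * H := mul_le_mul_of_nonneg_right h1 hH
    _ = η * (H * L) := by ring

theorem pairShort (h5 : LamSmooth) (h6 : QQJJ) (h9 : CountShort) (h11 : JJShort) : PairShort := by
  intro g R hg hR hK F hF h ε η hε hεh hh hη
  set I1 := ∫ α in (0 : ℝ)..1, α * R α with hI1
  have hI10 : 0 ≤ I1 := intervalIntegral.integral_nonneg zero_le_one fun α hα =>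
    mul_nonneg hα.1 (hR.nonneg α)
  have hR0 : 0 ≤ R 0 := hR.nonneg 0
  have hh0 : 0 < h := hε.trans hεh
  set κ : ℝ := h - ε with hκ
  have hκ0 : 0 < κ := by linarith
  set Q0 := R 0 / κ + 2 * κ * I1 with hQ0
  have hQ00 : 0 ≤ Q0 := by positivity
  have hcR : cR R κ = Q0 := rfl
  -- choose η'
  set θ : ℝ := min 1 (η / (14 * (Q0 + 1))) with hθ
  have hθ0 : 0 < θ := lt_min one_pos (by positivity)
  have hθ1 : θ ≤ 1 := min_le_left _ _
  have hθ2 : 7 * θ * Q0 ≤ η / 2 := by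
    have h1 : θ ≤ η / (14 * (Q0 + 1)) := min_le_right _ _
    rw [le_div_iff₀ (by positivity)] at h1
    nlinarith
  obtain ⟨K1, K2, T0, hK1, hK2, hT0, hJ⟩ := h11 F hF h ε θ hε hεh hh hθ0
  obtain ⟨C4, hC4, ha3'⟩ := a3_aux h5 hR
  obtain ⟨C5, hC5, hNN⟩ := h9 F hF
  -- the constant K5
  set spi := Real.sqrt Real.pi with hspi
  have hspi0 : 0 < spi := Real.sqrt_pos.mpr Real.pi_pos
  set K5 : ℝ := 2 / spi * ((1 + θ) / (2 * Real.pi) * (K1 * (R 0 * (Real.exp 4 * spi)) / κ +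
    (1 + θ) ^ 2 * C4) + K2 * R 0) with hK5
  have hK50 : 0 ≤ K5 := by positivity
  have evL : ∀ᶠ T : ℝ in atTop, (4 * Real.pi * K5 / η ≤ Real.log T ∧ 2 * C5 / η ≤ Real.log T ∧
      1 / κ ≤ Real.log T) ∧ ((Real.log T) ^ 2 ≤ T ^ h ∧ 3 ≤ T ^ h) :=
    ((Real.tendsto_log_atTop.eventually_ge_atTop _).and
      ((Real.tendsto_log_atTop.eventually_ge_atTop _).and
        (Real.tendsto_log_atTop.eventually_ge_atTop _))).and (ev_pow h hh0)
  obtain ⟨T6, hT6⟩ := evL.exists_forall_of_atTop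
  refine ⟨max T0 T6, hT0.trans (le_max_left _ _), fun T hT H hH1 hH2 => ?_⟩
  have hTT0 : T0 ≤ T := (le_max_left _ _).trans hT
  obtain ⟨⟨hL5, hL6, hL2⟩, hLT, h3T⟩ := hT6 T ((le_max_right _ _).trans hT)
  obtain ⟨U1, U2, hU1, hU1', hU2', hU2, hJb⟩ := hJ T hTT0 H hH1 hH2
  have hT10 : 10 ≤ T := hT0.trans hTT0
  have hU : 1 ≤ U1 := by linarith
  have hH3 : 3 ≤ H := h3T.trans hH1
  have hHpos : 0 < H := by linarith
  set L := Real.log T with hL
  have hLpos : 0 < L := lt_of_lt_of_le (by positivity) hL2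
  refine ⟨U1, U2, hU1, hU1', hU2', hU2, ?_, ?_⟩
  · refine ((hNN T hT10 H hH3 hH2 U1 U2 hU1 hU1' hU2' hU2).1).trans ?_
    exact nn_aux C5 η H L hC5 hHpos.le hη hL6 (hLT.trans hH1)
  · set Λ := κ * L with hΛ
    have hΛ1 : 1 ≤ Λ := by
      rw [div_le_iff₀ hκ0] at hL2
      rw [hΛ]; linarith
    have hΛ0 : 0 < Λ := by linarith
    rw [hcR, h6 g R hg hR hK F hF U1 U2 hU Λ]
    -- bound the integral
    have hRc := conv_cont hR
    have hVc : ContinuousOn (fun α : ℝ => VV (Λ * α)) (Set.uIcc 0 1) := by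
      refine (VV_cont Λ).comp (by fun_prop) ?_
      intro α hα
      rw [Set.uIcc_of_le zero_le_one] at hα
      simp only [Set.mem_Iic]
      nlinarith [hα.2]
    have hint1 : IntervalIntegrable (fun α : ℝ => R α * Real.exp (-(Λ * α) ^ 2)) volume 0 1 :=
      (by fun_prop : Continuous fun α : ℝ => R α * Real.exp (-(Λ * α) ^ 2)).intervalIntegrable _ _
    have hint2 : IntervalIntegrable (fun α : ℝ => R α * Real.exp (2 * (Λ * α) - (Λ * α) ^ 2 / 2))
        volume 0 1 :=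
      (by fun_prop : Continuous fun α : ℝ =>
        R α * Real.exp (2 * (Λ * α) - (Λ * α) ^ 2 / 2)).intervalIntegrable _ _
    have hint3 : IntervalIntegrable (fun α : ℝ => R α * VV (Λ * α)) volume 0 1 :=
      (hRc.continuousOn.mul hVc).intervalIntegrable
    have hint4 : IntervalIntegrable R volume 0 1 := hRc.intervalIntegrable _ _
    have hb : ∫ α in (0 : ℝ)..1, R α * JJ F U1 U2 (Λ * α) ≤
        ∫ α in (0 : ℝ)..1, ((1 + θ) / (2 * Real.pi) * (H * L ^ 2) * (R α * Real.exp (-(Λ * α) ^ 2)) +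
          (1 + θ) / (2 * Real.pi) * (K1 * (H * L)) *
            (R α * Real.exp (2 * (Λ * α) - (Λ * α) ^ 2 / 2)) +
          (1 + θ) / (2 * Real.pi) * ((1 + θ) ^ 2 * H) * (R α * VV (Λ * α)) + K2 * H * R α) := by
      refine intervalIntegral.integral_mono_on zero_le_one ?_ ?_ fun α hα => ?_
      · exact (hRc.mul ((JJ_cont hF hU).comp (by fun_prop))).intervalIntegrable _ _
      · exact (((hint1.const_mul _).add (hint2.const_mul _)).add (hint3.const_mul _)).add
          (hint4.const_mul _)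
      · have h1 := hJb (Λ * α) (by have := hα.1; positivity) (by
          calc Λ * α ≤ Λ * 1 := by gcongr; exact hα.2
            _ = κ * L := by rw [hΛ]; ring)
        have h2 := mul_le_mul_of_nonneg_left h1 (hR.nonneg α)
        refine h2.trans (le_of_eq ?_)
        ring
    have hsplit : ∫ α in (0 : ℝ)..1, ((1 + θ) / (2 * Real.pi) * (H * L ^ 2) *
          (R α * Real.exp (-(Λ * α) ^ 2)) +
          (1 + θ) / (2 * Real.pi) * (K1 * (H * L)) *
            (R α * Real.exp (2 * (Λ * α) - (Λ * α) ^ 2 / 2)) +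
          (1 + θ) / (2 * Real.pi) * ((1 + θ) ^ 2 * H) * (R α * VV (Λ * α)) + K2 * H * R α) =
        (1 + θ) / (2 * Real.pi) * (H * L ^ 2) * (∫ α in (0 : ℝ)..1, R α * Real.exp (-(Λ * α) ^ 2)) +
          (1 + θ) / (2 * Real.pi) * (K1 * (H * L)) *
            (∫ α in (0 : ℝ)..1, R α * Real.exp (2 * (Λ * α) - (Λ * α) ^ 2 / 2)) +
          (1 + θ) / (2 * Real.pi) * ((1 + θ) ^ 2 * H) * (∫ α in (0 : ℝ)..1, R α * VV (Λ * α)) +
          K2 * H * ∫ α in (0 : ℝ)..1, R α := by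
      rw [intervalIntegral.integral_add (((hint1.const_mul _).add (hint2.const_mul _)).add
          (hint3.const_mul _)) (hint4.const_mul _),
        intervalIntegral.integral_add ((hint1.const_mul _).add (hint2.const_mul _))
          (hint3.const_mul _),
        intervalIntegral.integral_add (hint1.const_mul _) (hint2.const_mul _),
        intervalIntegral.integral_const_mul, intervalIntegral.integral_const_mul,
        intervalIntegral.integral_const_mul, intervalIntegral.integral_const_mul]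
    -- individual bounds
    have ha1 := a1_aux hR Λ hΛ0
    have ha2 := a2_aux hR Λ hΛ0
    have ha3 := ha3' Λ hΛ1
    have ha4 : ∫ α in (0 : ℝ)..1, R α ≤ R 0 := by
      calc ∫ α in (0 : ℝ)..1, R α ≤ ∫ α in (0 : ℝ)..1, R 0 := by
            refine intervalIntegral.integral_mono_on zero_le_one hint4
              (continuous_const.intervalIntegrable _ _) fun α hα => conv_le hR α hα.1
        _ = R 0 := by simp
    have hθp : 0 ≤ (1 + θ) / (2 * Real.pi) := by positivity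
    have htot : 2 / spi * ∫ α in (0 : ℝ)..1, R α * JJ F U1 U2 (Λ * α) ≤
        2 / spi * ((1 + θ) / (2 * Real.pi) * (H * L ^ 2) * (R 0 * (spi / (2 * Λ))) +
          (1 + θ) / (2 * Real.pi) * (K1 * (H * L)) * (R 0 * (Real.exp 4 * spi) / Λ) +
          (1 + θ) / (2 * Real.pi) * ((1 + θ) ^ 2 * H) * (spi * Λ * I1 + C4) +
          K2 * H * R 0) := by
      refine mul_le_mul_of_nonneg_left ?_ (by positivity)
      refine hb.trans ?_
      rw [hsplit]
      gcongr
    refine htot.trans ?_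
    -- algebra
    have halg : 2 / spi * ((1 + θ) / (2 * Real.pi) * (H * L ^ 2) * (R 0 * (spi / (2 * Λ))) +
          (1 + θ) / (2 * Real.pi) * (K1 * (H * L)) * (R 0 * (Real.exp 4 * spi) / Λ) +
          (1 + θ) / (2 * Real.pi) * ((1 + θ) ^ 2 * H) * (spi * Λ * I1 + C4) +
          K2 * H * R 0) =
        (H * L / (2 * Real.pi)) * ((1 + θ) * (R 0 / κ) +
          (1 + θ) ^ 3 * (2 * κ * I1)) + H * K5 := by
      rw [hK5, hΛ]
      field_simp
      ring
    rw [halg]
    have hcube : (1 + θ) ^ 3 ≤ 1 + 7 * θ := cube_aux θ hθ0.le hθ1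
    have h1 : (1 + θ) * (R 0 / κ) + (1 + θ) ^ 3 * (2 * κ * I1) ≤
        (1 + 7 * θ) * Q0 := by
      rw [hQ0, mul_add]
      have e1 : 0 ≤ R 0 / κ := by positivity
      have e2 : 0 ≤ 2 * κ * I1 := by positivity
      gcongr
      linarith
    have h2 : H * K5 ≤ (H * L / (2 * Real.pi)) * (η / 2) := by
      rw [div_le_iff₀ hη] at hL5
      have e3 : (H * L / (2 * Real.pi)) * (η / 2) = H * (L * η) / (4 * Real.pi) := by
        field_simp; ring
      rw [e3, le_div_iff₀ (by positivity)]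
      nlinarith
    have h3 : 0 ≤ H * L / (2 * Real.pi) := by positivity
    calc (H * L / (2 * Real.pi)) * ((1 + θ) * (R 0 / κ) +
          (1 + θ) ^ 3 * (2 * κ * I1)) + H * K5 ≤
        (H * L / (2 * Real.pi)) * ((1 + 7 * θ) * Q0) + (H * L / (2 * Real.pi)) * (η / 2) := by
          gcongr
      _ = (H * L / (2 * Real.pi)) * (Q0 + 7 * θ * Q0 + η / 2) := by ring
      _ ≤ (H * L / (2 * Real.pi)) * (Q0 + η) := by
          refine mul_le_mul_of_nonneg_left ?_ h3
          linarith only [hθ2]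

end H613SI
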