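import Pool.Agent.H306R2.RZ.Defs
import Pool.Agent.H881R2.RZ_F1

set_option autoImplicit false

/-! Task E4 of project RZ: mixed second differences of the smooth factor. -/

namespace H613RZ

open Finset Filter Topology MeasureTheory
open Pool.Agent.H306R2.RZ

noncomputable section

theorem mixed (g g1 g12 : ℝ → ℝ → ℝ) (a b M : ℝ)
    (h1 : ∀ t ∈ Set.Icc a (a + 1), ∀ y ∈ Set.Icc b (b + 1), HasDerivAt (fun t => g t y) (g1 t y) t)
    (h2 : ∀ t ∈ Set.Icc a (a + 1), ∀ y ∈ Set.Icc b (b + 1), HasDerivAt (fun y => g1 t y) (g12 t y) y)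
    (hM : ∀ t ∈ Set.Icc a (a + 1), ∀ y ∈ Set.Icc b (b + 1), |g12 t y| ≤ M) :
    |g (a + 1) (b + 1) - g (a + 1) b - g a (b + 1) + g a b| ≤ M := by
  have hb0 : b ∈ Set.Icc b (b + 1) := ⟨le_refl _, by linarith⟩
  have hb1 : b + 1 ∈ Set.Icc b (b + 1) := ⟨by linarith, le_refl _⟩
  have ha0 : a ∈ Set.Icc a (a + 1) := ⟨le_refl _, by linarith⟩
  have ha1 : a + 1 ∈ Set.Icc a (a + 1) := ⟨by linarith, le_refl _⟩
  have key : ∀ t ∈ Set.Icc a (a + 1), ‖g1 t (b + 1) - g1 t b‖ ≤ M := by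
    intro t ht
    have := (convex_Icc b (b + 1)).norm_image_sub_le_of_norm_hasDerivWithin_le
      (f := fun y => g1 t y) (f' := fun y => g12 t y) (C := M)
      (fun y hy => (h2 t ht y hy).hasDerivWithinAt) (fun y hy => by
        rw [Real.norm_eq_abs]; exact hM t ht y hy) hb0 hb1
    simpa using this
  have := (convex_Icc a (a + 1)).norm_image_sub_le_of_norm_hasDerivWithin_le
      (f := fun t => g t (b + 1) - g t b) (f' := fun t => g1 t (b + 1) - g1 t b) (C := M)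
      (fun t ht => ((h1 t ht _ hb1).sub (h1 t ht _ hb0)).hasDerivWithinAt) key ha0 ha1
  have h3 : g (a + 1) (b + 1) - g (a + 1) b - g a (b + 1) + g a b =
      (g (a + 1) (b + 1) - g (a + 1) b) - (g a (b + 1) - g a b) := by ring
  rw [h3, ← Real.norm_eq_abs]
  simpa using this

/-- derivative of the weight `w (log t / L) / t` -/
theorem der_u (w : ℝ → ℝ) (hw : Differentiable ℝ w) (L t : ℝ) (ht : 0 < t) :
    HasDerivAt (fun t => w (Real.log t / L) / t)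
      (deriv w (Real.log t / L) / L / t ^ 2 - w (Real.log t / L) / t ^ 2) t := by
  have h1 : HasDerivAt (fun t => Real.log t / L) (t⁻¹ / L) t :=
    (Real.hasDerivAt_log ht.ne').div_const L
  have h2 : HasDerivAt (fun t => w (Real.log t / L)) (deriv w (Real.log t / L) * (t⁻¹ / L)) t :=
    (hw (Real.log t / L)).hasDerivAt.comp t h1
  have h3 := h2.div (hasDerivAt_id' t) ht.ne'
  refine HasDerivAt.congr_deriv h3 ?_
  field_simp

/-- derivative of `φ (κ / (t y))` in `t` -/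
theorem der_xi (φ φ' : ℝ → ℝ) (hφ : ∀ x, HasDerivAt φ (φ' x) x) (κ t y : ℝ) (ht : 0 < t)
    (hy : 0 < y) :
    HasDerivAt (fun t => φ (κ / (t * y))) (-(κ / (t * y) * φ' (κ / (t * y))) / t) t := by
  have h1 : HasDerivAt (fun t => κ / (t * y)) (-(κ / (t * y)) / t) t := by
    have h := (hasDerivAt_const t κ).div ((hasDerivAt_id' t).mul_const y) (mul_pos ht hy).ne'
    refine HasDerivAt.congr_deriv h ?_
    field_simp
    ring
  have h2 := (hφ (κ / (t * y))).comp t h1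
  refine HasDerivAt.congr_deriv h2 ?_
  ring

theorem der_xi' (φ φ' : ℝ → ℝ) (hφ : ∀ x, HasDerivAt φ (φ' x) x) (κ t y : ℝ) (ht : 0 < t)
    (hy : 0 < y) :
    HasDerivAt (fun y => φ (κ / (t * y))) (-(κ / (t * y) * φ' (κ / (t * y))) / y) y := by
  have h := der_xi φ φ' hφ κ y t hy ht
  simpa [mul_comm] using h

/-- the statement of the task, with `F1` as a hypothesis on the transform -/
theorem E4_of (Φ : ℝ → ℝ) (hΦ : ContDiff ℝ ((⊤ : ℕ∞) : WithTop ℕ∞) Φ)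
    (hD : ∀ j A : ℕ, ∃ C : ℝ, ∀ ξ : ℝ, |iteratedDeriv j Φ ξ| ≤ C / (1 + |ξ|) ^ A)
    (A : ℝ) (hA : 0 ≤ A) : ∃ C : ℝ, 0 < C ∧
    ∀ (X L : ℝ) (w1 w2 : ℝ → ℝ) (s B1 B2 : ℝ) (k : ℤ) (l a b : ℕ), 0 < X → 1 ≤ L →
      Wt s w1 → Wt s w2 → Bd 1 w1 B1 → Bd 1 w2 B2 → k ≠ 0 → 1 ≤ l → 1 ≤ a → 1 ≤ b →
      ∀ g : ℝ → ℝ → ℝ, (∀ t y, g t y = Φ ((k : ℝ) * X / (2 * (t * y * l))) *
        w1 (Real.log t / L) * w2 (Real.log y / L) / (2 * (t * y * l))) →
      |g (a + 1) (b + 1) - g (a + 1) b - g a (b + 1) + g a b| ≤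
      C * B1 * B2 / (((a : ℝ) * b) ^ 2 * l) * ((a : ℝ) * b * l / (k.natAbs * X)) ^ A := by
  -- the three functions
  have hd0 : ∀ x, HasDerivAt Φ (deriv Φ x) x := fun x =>
    (hΦ.differentiable (by simp) x).hasDerivAt
  have hΦ1 : ContDiff ℝ ((⊤ : ℕ∞) : WithTop ℕ∞) (deriv Φ) := by
    exact (contDiff_infty_iff_deriv.1 hΦ).2
  have hd1 : ∀ x, HasDerivAt (deriv Φ) (deriv (deriv Φ) x) x := fun x =>
    (hΦ1.differentiable (by simp) x).hasDerivAt
  have hdG1 : ∀ x, HasDerivAt (fun x => x * deriv Φ x) (deriv Φ x + x * deriv (deriv Φ) x) x := by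
    intro x
    have := (hasDerivAt_id' x).mul (hd1 x)
    refine HasDerivAt.congr_deriv this ?_
    ring
  obtain ⟨N, hN⟩ := exists_nat_ge A
  obtain ⟨C0, hC0⟩ := hD 0 N
  obtain ⟨C1, hC1⟩ := hD 1 (N + 1)
  obtain ⟨C2, hC2⟩ := hD 2 (N + 2)
  have hi1 : iteratedDeriv 1 Φ = deriv Φ := iteratedDeriv_one
  have hi2 : iteratedDeriv 2 Φ = deriv (deriv Φ) := by
    rw [show (2 : ℕ) = 1 + 1 from rfl, iteratedDeriv_succ, hi1]
  rw [hi1] at hC1
  rw [hi2] at hC2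
  simp only [iteratedDeriv_zero] at hC0
  set K : ℝ := |C0| + |C1| + |C2| + 1 with hK
  have hKpos : 0 < K := by positivity
  -- basic estimate
  have hb : ∀ ξ : ℝ, ∀ m : ℕ, ∀ v c : ℝ, |v| ≤ c / (1 + |ξ|) ^ (N + m) →
      |ξ| ^ A * (|ξ| ^ m * |v|) ≤ |c| := by
    intro ξ m v c hv
    have h1 : 0 ≤ |ξ| := abs_nonneg ξ
    have h2 : |ξ| ^ A ≤ (1 + |ξ|) ^ (N : ℕ) := by
      calc |ξ| ^ A ≤ (1 + |ξ|) ^ A := Real.rpow_le_rpow h1 (by linarith) hA
        _ ≤ (1 + |ξ|) ^ (N : ℝ) := Real.rpow_le_rpow_of_exponent_le (by linarith) hN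
        _ = (1 + |ξ|) ^ (N : ℕ) := Real.rpow_natCast _ _
    have h3 : |ξ| ^ m ≤ (1 + |ξ|) ^ m := pow_le_pow_left₀ h1 (by linarith) m
    have h4 : 0 < (1 + |ξ|) ^ (N + m) := by positivity
    calc |ξ| ^ A * (|ξ| ^ m * |v|) ≤ (1 + |ξ|) ^ (N : ℕ) * ((1 + |ξ|) ^ m * (c / (1 + |ξ|) ^ (N + m))) := by
          gcongr
      _ = c := by
          rw [pow_add]; field_simp
      _ ≤ |c| := le_abs_self c
  -- G0, G1, G2
  have hG0 : ∀ ξ : ℝ, |ξ| ^ A * |Φ ξ| ≤ K := by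
    intro ξ
    have := hb ξ 0 (Φ ξ) C0 (by simpa using hC0 ξ)
    simp only [pow_zero, one_mul] at this
    linarith [abs_nonneg C1, abs_nonneg C2]
  have hG1 : ∀ ξ : ℝ, |ξ| ^ A * |ξ * deriv Φ ξ| ≤ K := by
    intro ξ
    have := hb ξ 1 (deriv Φ ξ) C1 (hC1 ξ)
    rw [pow_one, ← abs_mul] at this
    linarith [abs_nonneg C0, abs_nonneg C2]
  have hG2 : ∀ ξ : ℝ, |ξ| ^ A * |ξ * (deriv Φ ξ + ξ * deriv (deriv Φ) ξ)| ≤ K := by
    intro ξ
    have h1 := hb ξ 1 (deriv Φ ξ) C1 (hC1 ξ)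
    have h2 := hb ξ 2 (deriv (deriv Φ) ξ) C2 (hC2 ξ)
    have h3 : |ξ * (deriv Φ ξ + ξ * deriv (deriv Φ) ξ)| ≤
        |ξ| ^ 1 * |deriv Φ ξ| + |ξ| ^ 2 * |deriv (deriv Φ) ξ| := by
      calc |ξ * (deriv Φ ξ + ξ * deriv (deriv Φ) ξ)| =
          |ξ * deriv Φ ξ + ξ ^ 2 * deriv (deriv Φ) ξ| := by ring_nf
        _ ≤ |ξ * deriv Φ ξ| + |ξ ^ 2 * deriv (deriv Φ) ξ| := abs_add_le _ _
        _ = _ := by rw [abs_mul, abs_mul, abs_pow, pow_one]
    have h4 : 0 ≤ |ξ| ^ A := Real.rpow_nonneg (abs_nonneg ξ) A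
    have h5 := mul_le_mul_of_nonneg_left h3 h4
    linarith [abs_nonneg C0, h1, h2]
  refine ⟨9 / 2 * K * 8 ^ A, by positivity, ?_⟩
  intro X L w1 w2 s B1 B2 k l a b hX hL hw1 hw2 hB1 hB2 hk hl ha hb' g hg
  have hLpos : 0 < L := by linarith
  have hlR : (1 : ℝ) ≤ l := by exact_mod_cast hl
  have haR : (1 : ℝ) ≤ a := by exact_mod_cast ha
  have hbR : (1 : ℝ) ≤ b := by exact_mod_cast hb'
  have hkR : (1 : ℝ) ≤ k.natAbs := by
    have : 1 ≤ k.natAbs := Nat.one_le_iff_ne_zero.2 (Int.natAbs_ne_zero.2 hk)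
    exact_mod_cast this
  have habsk : |(k : ℝ)| = k.natAbs := by
    rw [Nat.cast_natAbs]; simp
  set κ : ℝ := (k : ℝ) * X / (2 * l) with hκ
  have hκabs : |κ| = k.natAbs * X / (2 * l) := by
    rw [hκ, abs_div, abs_mul, habsk, abs_of_pos hX, abs_of_pos (by positivity : (0:ℝ) < 2 * l)]
  have hκpos : 0 < |κ| := by rw [hκabs]; positivity
  have hdw1 : Differentiable ℝ w1 := hw1.smooth.differentiable (by simp)
  have hdw2 : Differentiable ℝ w2 := hw2.smooth.differentiable (by simp)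
  have hv1 : ∀ y, |w1 y| ≤ B1 := fun y => by simpa using hB1 0 (by norm_num) y
  have hv2 : ∀ y, |w2 y| ≤ B2 := fun y => by simpa using hB2 0 (by norm_num) y
  have hv1' : ∀ y, |deriv w1 y| ≤ B1 := fun y => by simpa using hB1 1 (by norm_num) y
  have hv2' : ∀ y, |deriv w2 y| ≤ B2 := fun y => by simpa using hB2 1 (by norm_num) y
  have hB1n : 0 ≤ B1 := (abs_nonneg _).trans (hv1 0)
  have hB2n : 0 ≤ B2 := (abs_nonneg _).trans (hv2 0)
  -- weights
  set u1 : ℝ → ℝ := fun t => w1 (Real.log t / L) / t with hu1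
  set u2 : ℝ → ℝ := fun t => w2 (Real.log t / L) / t with hu2
  set v1 : ℝ → ℝ := fun t => deriv w1 (Real.log t / L) / L / t ^ 2 - w1 (Real.log t / L) / t ^ 2 with hv1d
  set v2 : ℝ → ℝ := fun t => deriv w2 (Real.log t / L) / L / t ^ 2 - w2 (Real.log t / L) / t ^ 2 with hv2d
  have hu1b : ∀ t, 0 < t → |u1 t| ≤ B1 / t := by
    intro t ht
    rw [hu1]; simp only
    rw [abs_div, abs_of_pos ht]
    gcongr
    exact hv1 _
  have hu2b : ∀ t, 0 < t → |u2 t| ≤ B2 / t := by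
    intro t ht
    rw [hu2]; simp only
    rw [abs_div, abs_of_pos ht]
    gcongr
    exact hv2 _
  have aux : ∀ (p r B t : ℝ), |p| ≤ B → |r| ≤ B → 0 < t → 0 ≤ B →
      |p / L / t ^ 2 - r / t ^ 2| ≤ 2 * B / t ^ 2 := by
    intro p r B t hp hr ht hB
    calc |p / L / t ^ 2 - r / t ^ 2| ≤ |p / L / t ^ 2| + |r / t ^ 2| := abs_sub _ _
      _ = |p| / L / t ^ 2 + |r| / t ^ 2 := by
          rw [abs_div, abs_div, abs_div, abs_of_pos hLpos, abs_of_pos (by positivity : (0:ℝ) < t ^ 2)]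
      _ ≤ B / t ^ 2 + B / t ^ 2 := by
          gcongr
          calc |p| / L ≤ |p| / 1 := by gcongr
            _ = |p| := by simp
            _ ≤ B := hp
      _ = 2 * B / t ^ 2 := by ring
  have hv1b : ∀ t, 0 < t → |v1 t| ≤ 2 * B1 / t ^ 2 := fun t ht =>
    aux _ _ _ _ (hv1' _) (hv1 _) ht hB1n
  have hv2b : ∀ t, 0 < t → |v2 t| ≤ 2 * B2 / t ^ 2 := fun t ht =>
    aux _ _ _ _ (hv2' _) (hv2 _) ht hB2n
  -- the function and its derivatives
  set g1 : ℝ → ℝ → ℝ := fun t y => (-(κ / (t * y) * deriv Φ (κ / (t * y))) / t * u1 t +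
    Φ (κ / (t * y)) * v1 t) * u2 y / (2 * l) with hg1
  set g12 : ℝ → ℝ → ℝ := fun t y =>
    ((κ / (t * y) * (deriv Φ (κ / (t * y)) + κ / (t * y) * deriv (deriv Φ) (κ / (t * y)))) / y / t * u1 t +
      (-(κ / (t * y) * deriv Φ (κ / (t * y))) / y) * v1 t) * u2 y / (2 * l) +
    (-(κ / (t * y) * deriv Φ (κ / (t * y))) / t * u1 t +
    Φ (κ / (t * y)) * v1 t) * v2 y / (2 * l) with hg12
  have hgeq : ∀ t y, 0 < t → 0 < y → g t y = Φ (κ / (t * y)) * u1 t * u2 y / (2 * l) := by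
    intro t y ht hy
    rw [hg]
    have : (k : ℝ) * X / (2 * (t * y * l)) = κ / (t * y) := by
      rw [hκ]; field_simp
    rw [this, hu1, hu2]
    simp only
    field_simp
  refine le_trans (mixed g g1 g12 a b (9 / 2 * K * B1 * B2 / (((a : ℝ) * b) ^ 2 * l) *
    (8 * ((a : ℝ) * b * l / (k.natAbs * X))) ^ A) ?_ ?_ ?_) ?_
  · intro t ht y hy
    have ht0 : 0 < t := by have := ht.1; linarith
    have hy0 : 0 < y := by have := hy.1; linarith
    have hh : HasDerivAt (fun t => Φ (κ / (t * y)) * u1 t * u2 y / (2 * l)) (g1 t y) t := by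
      have h1 := (((der_xi Φ (deriv Φ) hd0 κ t y ht0 hy0).mul (der_u w1 hdw1 L t ht0)).mul_const
        (u2 y)).div_const (2 * (l : ℝ))
      exact h1
    refine hh.congr_of_eventuallyEq ?_
    filter_upwards [lt_mem_nhds ht0] with t' ht'
    exact hgeq t' y ht' hy0
  · intro t ht y hy
    have ht0 : 0 < t := by have := ht.1; linarith
    have hy0 : 0 < y := by have := hy.1; linarith
    have h0 := der_xi' Φ (deriv Φ) hd0 κ t y ht0 hy0
    have h1 := der_xi' (fun x => x * deriv Φ x) (fun x => deriv Φ x + x * deriv (deriv Φ) x) hdG1 κ t y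
      ht0 hy0
    have h2 := ((((h1.neg.div_const t).mul_const (u1 t)).add (h0.mul_const (v1 t))).mul
      (der_u w2 hdw2 L y hy0)).div_const (2 * (l : ℝ))
    refine HasDerivAt.congr_deriv h2 ?_
    rw [hg12, hv2d, hu2]
    simp only [Pi.add_apply, Pi.neg_apply]
    ring
  · intro t ht y hy
    have ht0 : 0 < t := by have := ht.1; linarith
    have hy0 : 0 < y := by have := hy.1; linarith
    set ξ : ℝ := κ / (t * y) with hξ
    have hξpos : 0 < |ξ| := by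
      rw [hξ, abs_div, abs_of_pos (by positivity : (0:ℝ) < t * y)]; positivity
    set E : ℝ := K / |ξ| ^ A with hE
    have hξA : 0 < |ξ| ^ A := Real.rpow_pos_of_pos hξpos A
    have e0 : |Φ ξ| ≤ E := by
      rw [hE, le_div_iff₀ hξA, mul_comm]; exact hG0 ξ
    have e1 : |ξ * deriv Φ ξ| ≤ E := by
      rw [hE, le_div_iff₀ hξA, mul_comm]; exact hG1 ξ
    have e2 : |ξ * (deriv Φ ξ + ξ * deriv (deriv Φ) ξ)| ≤ E := by
      rw [hE, le_div_iff₀ hξA, mul_comm]; exact hG2 ξ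
    have hE0 : 0 ≤ E := by positivity
    have b1 := hu1b t ht0
    have b2 := hu2b y hy0
    have b3 := hv1b t ht0
    have b4 := hv2b y hy0
    have hmain : |g12 t y| ≤ 9 / 2 * E * B1 * B2 / ((t * y) ^ 2 * l) := by
      have q1 : |(ξ * (deriv Φ ξ + ξ * deriv (deriv Φ) ξ)) / y / t * u1 t| ≤ E / y / t * (B1 / t) := by
        rw [abs_mul, abs_div, abs_div, abs_of_pos ht0, abs_of_pos hy0]
        gcongr
      have q2 : |(-(ξ * deriv Φ ξ) / y) * v1 t| ≤ E / y * (2 * B1 / t ^ 2) := by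
        rw [abs_mul, abs_div, abs_neg, abs_of_pos hy0]
        gcongr
      have q3 : |-(ξ * deriv Φ ξ) / t * u1 t| ≤ E / t * (B1 / t) := by
        rw [abs_mul, abs_div, abs_neg, abs_of_pos ht0]
        gcongr
      have q4 : |Φ ξ * v1 t| ≤ E * (2 * B1 / t ^ 2) := by
        rw [abs_mul]
        gcongr
      have q5 : |((ξ * (deriv Φ ξ + ξ * deriv (deriv Φ) ξ)) / y / t * u1 t +
          (-(ξ * deriv Φ ξ) / y) * v1 t) * u2 y / (2 * l)| ≤
          (E / y / t * (B1 / t) + E / y * (2 * B1 / t ^ 2)) * (B2 / y) / (2 * l) := by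
        rw [abs_div, abs_mul, abs_of_pos (by positivity : (0:ℝ) < 2 * l)]
        gcongr
        exact (abs_add_le _ _).trans (add_le_add q1 q2)
      have q6 : |(-(ξ * deriv Φ ξ) / t * u1 t + Φ ξ * v1 t) * v2 y / (2 * l)| ≤
          (E / t * (B1 / t) + E * (2 * B1 / t ^ 2)) * (2 * B2 / y ^ 2) / (2 * l) := by
        rw [abs_div, abs_mul, abs_of_pos (by positivity : (0:ℝ) < 2 * l)]
        gcongr
        exact (abs_add_le _ _).trans (add_le_add q3 q4)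
      calc |g12 t y| ≤ _ := abs_add_le _ _
        _ ≤ (E / y / t * (B1 / t) + E / y * (2 * B1 / t ^ 2)) * (B2 / y) / (2 * l) +
            (E / t * (B1 / t) + E * (2 * B1 / t ^ 2)) * (2 * B2 / y ^ 2) / (2 * l) := add_le_add q5 q6
        _ = 9 / 2 * E * B1 * B2 / ((t * y) ^ 2 * l) := by
            field_simp
            ring
    refine hmain.trans ?_
    have hEle : E ≤ K * (8 * ((a : ℝ) * b * l / (k.natAbs * X))) ^ A := by
      rw [hE, div_eq_mul_inv, ← Real.inv_rpow hξpos.le]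
      gcongr
      rw [hξ, abs_div, abs_of_pos (by positivity : (0:ℝ) < t * y), hκabs, inv_div]
      have ht2 : t ≤ 2 * a := by have := ht.2; linarith
      have hy2 : y ≤ 2 * b := by have := hy.2; linarith
      have : t * y ≤ (2 * a) * (2 * b) := mul_le_mul ht2 hy2 hy0.le (by positivity)
      calc t * y / (k.natAbs * X / (2 * l)) = (t * y) * (2 * l / (k.natAbs * X)) := by
            field_simp
        _ ≤ ((2 * a) * (2 * b)) * (2 * l / (k.natAbs * X)) := by gcongr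
        _ = 8 * ((a : ℝ) * b * l / (k.natAbs * X)) := by ring
    have hta : (a : ℝ) * b ≤ t * y := mul_le_mul ht.1 hy.1 (by positivity) ht0.le
    calc 9 / 2 * E * B1 * B2 / ((t * y) ^ 2 * l) ≤
        9 / 2 * (K * (8 * ((a : ℝ) * b * l / (k.natAbs * X))) ^ A) * B1 * B2 / (((a : ℝ) * b) ^ 2 * l) := by
          gcongr
      _ = _ := by ring
  · rw [Real.mul_rpow (by norm_num) (by positivity)]
    apply le_of_eq
    ring

theorem E4 (F : ℝ → ℝ) (hF : TF F) (A : ℝ) (hA : 0 ≤ A) : ∃ C : ℝ, 0 < C ∧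
    ∀ (X L : ℝ) (w1 w2 : ℝ → ℝ) (s B1 B2 : ℝ) (k : ℤ) (l a b : ℕ), 0 < X → 1 ≤ L →
      Wt s w1 → Wt s w2 → Bd 1 w1 B1 → Bd 1 w2 B2 → k ≠ 0 → 1 ≤ l → 1 ≤ a → 1 ≤ b →
      |ph F X L w1 w2 k l (a + 1) (b + 1) - ph F X L w1 w2 k l (a + 1) b -
        ph F X L w1 w2 k l a (b + 1) + ph F X L w1 w2 k l a b| ≤
      C * B1 * B2 / (((a : ℝ) * b) ^ 2 * l) * ((a : ℝ) * b * l / (k.natAbs * X)) ^ A := by
  obtain ⟨h1, h2⟩ := Pool.Agent.H881R2.RZ.F1 F hF
  obtain ⟨C, hC, h⟩ := E4_of (Ft F) h1 h2 A hA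
  refine ⟨C, hC, ?_⟩
  intro X L w1 w2 s B1 B2 k l a b hX hL hw1 hw2 hB1 hB2 hk hl ha hb
  have := h X L w1 w2 s B1 B2 k l a b hX hL hw1 hw2 hB1 hB2 hk hl ha hb
    (fun t y => Ft F ((k : ℝ) * X / (2 * (t * y * l))) *
        w1 (Real.log t / L) * w2 (Real.log y / L) / (2 * (t * y * l))) (fun t y => rfl)
  simpa only [ph, Nat.cast_add, Nat.cast_one] using this

end

end H613RZ
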