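import Mathlib
import Pool.Agent.Helper760.OracleSim4

set_option autoImplicit false

namespace Pool.Agent.H613R2.OLow

open Pool.Agent.Helper760.Kolm Pool.Agent.Helper760.OracleNF Pool.Agent.Helper760.OracleC
open Encodable Filter

/-- the strings of length `n` whose complexity given `y` is at most `t` -/
noncomputable def low (D : List Bool → List Bool →. List Bool) (n t : ℕ) (y : List Bool) :
    Finset (Fin n → Bool) := by
  classical
  exact Finset.univ.filter (fun v => condC D (List.ofFn v) y ≤ t)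

theorem card_low {D : List Bool → List Bool →. List Bool} (hD : OptimalCond D) (n t : ℕ)
    (y : List Bool) : (low D n t y).card ≤ 2 ^ (t + 1) := by
  classical
  have hf : ∀ v : Fin n → Bool, ∃ p, List.ofFn v ∈ D p y ∧ p.length = condC D (List.ofFn v) y :=
    fun v => condC_spec hD _ y
  choose f hf1 hf2 using hf
  have h1 : (low D n t y).card ≤ ((allLe t).toFinset).card := by
    refine Finset.card_le_card_of_injOn f ?_ ?_
    · intro v hv
      unfold low at hv
      simp only [Finset.coe_filter, Finset.mem_univ, true_and, Set.mem_ofPred_eq] at hv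
      simp only [List.coe_toFinset, Set.mem_ofPred_eq, mem_allLe, hf2]
      exact hv
    · intro v _ v' _ h
      have h2 := hf1 v
      rw [h] at h2
      exact List.ofFn_injective (Part.mem_unique h2 (hf1 v'))
  have h2 : ((allLe t).toFinset).card ≤ (allLe t).length := List.toFinset_card_le _
  have h3 := length_allLe t
  omega

/-- Some `2 ^ k` strings of length `n` are not all simple relative to any short condition. -/
theorem exists_tuple {D : List Bool → List Bool →. List Bool} (hD : OptimalCond D)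
    (n k e L : ℕ) (h : L + 1 + (k + e + 1) * 2 ^ k ≤ n * 2 ^ k) :
    ∃ a : ℕ → List Bool, (∀ i, (a i).length = n) ∧
      ∀ y : List Bool, y.length ≤ L → ∃ i < 2 ^ k, k + e < condC D (a i) y := by
  classical
  by_contra hcon
  push Not at hcon
  have hall : ∀ a : Fin (2 ^ k) → (Fin n → Bool), ∃ y ∈ (allLe L).toFinset,
      a ∈ Fintype.piFinset (fun _ : Fin (2 ^ k) => low D n (k + e) y) := by
    intro a
    obtain ⟨y, hy, hyi⟩ := hcon (fun i => if hi : i < 2 ^ k then List.ofFn (a ⟨i, hi⟩) else
      List.replicate n false) (by intro i; split_ifs <;> simp)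
    refine ⟨y, by simpa [mem_allLe] using hy, ?_⟩
    rw [Fintype.mem_piFinset]
    intro i
    have := hyi i.1 i.2
    simp only [i.2, dif_pos] at this
    unfold low
    simp only [Finset.mem_filter, Finset.mem_univ, true_and]
    exact this
  have hsub : (Finset.univ : Finset (Fin (2 ^ k) → (Fin n → Bool))) ⊆
      (allLe L).toFinset.biUnion
        (fun y => Fintype.piFinset (fun _ : Fin (2 ^ k) => low D n (k + e) y)) := by
    intro a _
    rw [Finset.mem_biUnion]
    exact hall a
  have h1 := Finset.card_le_card hsub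
  have h2 := h1.trans Finset.card_biUnion_le
  have h3 : ∀ y ∈ (allLe L).toFinset,
      (Fintype.piFinset (fun _ : Fin (2 ^ k) => low D n (k + e) y)).card ≤
        (2 ^ (k + e + 1)) ^ (2 ^ k) := by
    intro y _
    rw [Fintype.card_piFinset]
    simp only [Finset.prod_const, Finset.card_univ, Fintype.card_fin]
    exact Nat.pow_le_pow_left (card_low hD n (k + e) y) _
  have h4 := h2.trans (Finset.sum_le_card_nsmul _ _ _ h3)
  have h5 : ((allLe L).toFinset).card < 2 ^ (L + 1) := by
    have h6 : ((allLe L).toFinset).card ≤ (allLe L).length := List.toFinset_card_le _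
    have h7 := length_allLe L
    omega
  have h8 : (Finset.univ : Finset (Fin (2 ^ k) → (Fin n → Bool))).card = 2 ^ (n * 2 ^ k) := by
    rw [Finset.card_univ]
    simp [← pow_mul]
  rw [h8, smul_eq_mul] at h4
  have h9 : ((allLe L).toFinset).card * (2 ^ (k + e + 1)) ^ (2 ^ k) <
      2 ^ (L + 1) * (2 ^ (k + e + 1)) ^ (2 ^ k) :=
    Nat.mul_lt_mul_of_pos_right h5 (by positivity)
  have h10 : 2 ^ (L + 1) * (2 ^ (k + e + 1)) ^ (2 ^ k) = 2 ^ (L + 1 + (k + e + 1) * 2 ^ k) := by
    rw [← pow_mul, ← pow_add]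
  rw [h10] at h9
  have h11 : 2 ^ (L + 1 + (k + e + 1) * 2 ^ k) ≤ 2 ^ (n * 2 ^ k) :=
    Nat.pow_le_pow_right (by norm_num) h
  omega

/-- the index in the oracle of the `j`-th bit of the `i`-th string of length `n` -/
def idx (n i j : ℕ) : ℕ := Nat.pair n (Nat.pair i j)

/-- the oracle that stores a family of strings -/
def orc (A : ℕ → ℕ → List Bool) (z : ℕ) : Bool :=
  (A z.unpair.1 z.unpair.2.unpair.1).getD z.unpair.2.unpair.2 false

theorem orc_idx (A : ℕ → ℕ → List Bool) (n i j : ℕ) :
    orc A (idx n i j) = (A n i).getD j false := by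
  simp [orc, idx]

/-- reading a string from a known part of the oracle -/
def rd (σ : List ℕ) (q : List Bool) : Option (List Bool) :=
  if idx (numOf q) (val (restOf q)) (numOf q) < σ.length then
    some ((List.range (numOf q)).map
      (fun j => decide (σ.getD (idx (numOf q) (val (restOf q)) j) 0 = 1)))
  else none

theorem primrec_rd : Primrec₂ rd := by
  unfold rd idx
  have hn : Primrec (fun z : List ℕ × List Bool => numOf z.2) := primrec_numOf.comp Primrec.snd
  have hv : Primrec (fun z : List ℕ × List Bool => val (restOf z.2)) :=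
    primrec_val.comp (primrec_restOf.comp Primrec.snd)
  refine Primrec.ite ?_ ?_ (Primrec.const none)
  · exact Primrec.nat_lt.comp (Primrec₂.natPair.comp hn (Primrec₂.natPair.comp hv hn))
      (Primrec.list_length.comp Primrec.fst)
  · refine Primrec.option_some.comp (Primrec.list_map (Primrec.list_range.comp hn) ?_)
    have h1 : Primrec (fun z : (List ℕ × List Bool) × ℕ =>
        z.1.1.getD (Nat.pair (numOf z.1.2) (Nat.pair (val (restOf z.1.2)) z.2)) 0) :=
      (Primrec.list_getD 0).comp (Primrec.fst.comp Primrec.fst)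
        (Primrec₂.natPair.comp (hn.comp Primrec.fst)
          (Primrec₂.natPair.comp (hv.comp Primrec.fst) Primrec.snd))
    exact (PrimrecPred.decide (Primrec.eq.comp h1 (Primrec.const 1)))

theorem idx_le {n i j : ℕ} (h : j < n) : idx n i j < idx n i n :=
  Nat.pair_lt_pair_right n (Nat.pair_lt_pair_right i h)

theorem rd_pre (A : ℕ → ℕ → List Bool) (hA : ∀ n i, (A n i).length = n) (n i : ℕ)
    (p : List Bool) (hp : val p = i) (k : ℕ) (s : List Bool)
    (h : rd (pre (fun z => (orc A z).toNat) k) (putNum n p) = some s) : s = A n i := by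
  unfold rd at h
  rw [numOf_putNum, restOf_putNum, hp] at h
  split_ifs at h with hk
  rw [length_pre] at hk
  simp only [Option.some.injEq] at h
  rw [← h]
  apply List.ext_getElem
  · simp [hA]
  · intro j h1 h2
    simp only [List.length_map, List.length_range] at h1
    simp only [List.getElem_map, List.getElem_range]
    have h3 : idx n i j < k := (idx_le h1).trans hk
    have h4 : (pre (fun z => (orc A z).toNat) k)[idx n i j]? = some (orc A (idx n i j)).toNat :=
      (getElem?_pre _ _ _ _).2 ⟨h3, rfl⟩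
    rw [List.getD_eq_getElem?_getD, h4, Option.getD_some, orc_idx,
      List.getD_eq_getElem?_getD, List.getElem?_eq_getElem h2, Option.getD_some]
    cases (A n i)[j] <;> rfl

theorem exists_prog (A : ℕ → ℕ → List Bool) (hA : ∀ n i, (A n i).length = n)
    {V : List Bool →. List Bool} (hV : OptimalIn (orc A) V) :
    ∃ c : ℕ, ∀ n k i : ℕ, i < 2 ^ k → oracleC V (A n i) ≤ k + 2 * Nat.size n + c := by
  set g : ℕ → ℕ := fun z => (orc A z).toNat with hg
  have hgX : (g : ℕ →. ℕ) = oracleFn (orc A) := rfl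
  obtain ⟨c, hc⟩ := hV.2 (fun q => Nat.rfindOpt (fun k => rd (pre g k) q)) (by
    rw [← hgX]
    exact recIn_of_stepped g primrec_rd)
  refine ⟨c + 1, ?_⟩
  intro n k i hi
  obtain ⟨p, hpl, hpv⟩ := exists_val i k hi
  have hmem : A n i ∈ Nat.rfindOpt (fun k => rd (pre g k) (putNum n p)) := by
    have hdom : (Nat.rfindOpt (fun k => rd (pre g k) (putNum n p))).Dom := by
      rw [Nat.rfindOpt_dom]
      refine ⟨idx n i n + 1, (List.range n).map
        (fun j => decide ((pre g (idx n i n + 1)).getD (idx n i j) 0 = 1)), ?_⟩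
      unfold rd
      rw [numOf_putNum, restOf_putNum, hpv, if_pos (by rw [length_pre]; omega)]
      rfl
    have h1 := Part.get_mem hdom
    obtain ⟨k', hk'⟩ := Nat.rfindOpt_spec h1
    have h2 := rd_pre A hA n i p hpv k' _ hk'
    rw [h2] at h1
    exact h1
  obtain ⟨q, hq, hql⟩ := hc _ _ hmem
  have h2 := oracleC_le _ _ hq
  rw [length_putNum] at hql
  omega

/-- The lower bound with natural parameters. -/
theorem lower (φ : ℕ → ℕ) (hφ : Tendsto φ atTop atTop)
    (hle : ∀ n, 4 * (φ n * Nat.size n) ≤ n) :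
    ∃ X : ℕ → Bool, ∀ D : List Bool → List Bool →. List Bool, OptimalCond D →
      ∀ V : List Bool →. List Bool, OptimalIn X V → ∀ c : ℝ, ∀ᶠ n : ℕ in atTop,
        ∀ y : List Bool, (∀ s : List Bool, s.length ≤ n →
          (condC D s y : ℝ) ≤ oracleC V s + (c * Real.log n + c)) →
          2 ^ (n - 4 * (φ n * Nat.size n)) < y.length := by
  classical
  obtain ⟨D0, hD0⟩ := exists_optimalCond
  -- the strings
  have hex : ∀ n : ℕ, ∃ a : ℕ → List Bool, (∀ i, (a i).length = n) ∧ (3 ≤ φ n * Nat.size n →
      ∀ y : List Bool, y.length ≤ 2 ^ (n - 4 * (φ n * Nat.size n)) →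
        ∃ i < 2 ^ (n - 2 * (φ n * Nat.size n)),
          (n - 2 * (φ n * Nat.size n)) + φ n * Nat.size n < condC D0 (a i) y) := by
    intro n
    by_cases h3 : 3 ≤ φ n * Nat.size n
    · have h4 := hle n
      set u := φ n * Nat.size n with hu
      obtain ⟨a, ha1, ha2⟩ := exists_tuple hD0 n (n - 2 * u) u (2 ^ (n - 4 * u)) (by
        have h5 : 2 ^ (n - 4 * u) ≤ 2 ^ (n - 2 * u) :=
          Nat.pow_le_pow_right (by norm_num) (by omega)
        have h6 : 1 ≤ 2 ^ (n - 2 * u) := Nat.one_le_two_pow
        have h7 : n = (n - 2 * u + u + 1) + (u - 1) := by omega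
        calc 2 ^ (n - 4 * u) + 1 + (n - 2 * u + u + 1) * 2 ^ (n - 2 * u)
            ≤ (u - 1) * 2 ^ (n - 2 * u) + (n - 2 * u + u + 1) * 2 ^ (n - 2 * u) := by
              have : 2 * 2 ^ (n - 2 * u) ≤ (u - 1) * 2 ^ (n - 2 * u) :=
                Nat.mul_le_mul_right _ (by omega)
              omega
          _ = ((n - 2 * u + u + 1) + (u - 1)) * 2 ^ (n - 2 * u) := by ring
          _ = n * 2 ^ (n - 2 * u) := by rw [← h7])
      exact ⟨a, ha1, fun _ => ha2⟩
    · exact ⟨fun _ => List.replicate n false, by simp, fun h => absurd h h3⟩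
  choose A hA1 hA2 using hex
  refine ⟨orc A, ?_⟩
  intro D hD V hV c
  -- comparison of optimal machines
  obtain ⟨c0, hc0⟩ := hD0.2 D hD.1
  have hcmp : ∀ s y, condC D0 s y ≤ condC D s y + c0 := by
    intro s y
    obtain ⟨p, hp, hpl⟩ := condC_spec hD s y
    obtain ⟨q, hq, hql⟩ := hc0 p y s hp
    have := condC_le s y q hq
    omega
  obtain ⟨c1, hc1⟩ := exists_prog A hA1 hV
  -- eventually the gap is larger than the allowed error
  set N0 : ℕ := ⌈|c|⌉₊ with hN0
  have hN0c : |c| ≤ N0 := Nat.le_ceil _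
  have hev : ∀ᶠ n : ℕ in atTop, 3 ≤ φ n ∧ 2 + N0 + N0 + c0 + c1 + 1 ≤ φ n :=
    (hφ.eventually_ge_atTop 3).and (hφ.eventually_ge_atTop _)
  filter_upwards [hev, eventually_ge_atTop 1] with n hn hn1 y hy
  by_contra hlen
  rw [not_lt] at hlen
  have hs1 : 1 ≤ Nat.size n := Nat.size_pos.2 (by omega)
  have h3 : 3 ≤ φ n * Nat.size n := by nlinarith [hn.1]
  obtain ⟨i, hi, hbig⟩ := hA2 n h3 y hlen
  have h4 := hc1 n _ i hi
  have h5 := hy (A n i) (hA1 n i).le
  have h6 := hcmp (A n i) y
  -- logarithm against size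
  have hlog : Real.log n ≤ Nat.size n := by
    have h7 : (n : ℝ) ≤ 2 ^ (Nat.size n) := by exact_mod_cast (Nat.lt_size_self n).le
    have h8 : Real.log n ≤ Real.log (2 ^ (Nat.size n)) :=
      Real.log_le_log (by exact_mod_cast hn1) h7
    rw [Real.log_pow] at h8
    have h9 : Real.log 2 ≤ 1 := by
      have := Real.log_two_lt_d9
      linarith
    have h10 : (0 : ℝ) ≤ Nat.size n := Nat.cast_nonneg _
    nlinarith
  have hlog0 : 0 ≤ Real.log n := Real.log_nonneg (by exact_mod_cast hn1)
  have hcl : c * Real.log n + c ≤ N0 * Nat.size n + N0 := by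
    have h11 : c ≤ N0 := (le_abs_self c).trans hN0c
    have h12 : c * Real.log n ≤ N0 * Nat.size n := by
      calc c * Real.log n ≤ N0 * Real.log n := mul_le_mul_of_nonneg_right h11 hlog0
        _ ≤ N0 * Nat.size n := mul_le_mul_of_nonneg_left hlog (Nat.cast_nonneg _)
    linarith
  have h13 : (condC D (A n i) y : ℝ) ≤ oracleC V (A n i) + (N0 * Nat.size n + N0) := by linarith
  have h14 : condC D (A n i) y ≤ oracleC V (A n i) + (N0 * Nat.size n + N0) := by
    exact_mod_cast h13
  -- arithmetic
  have h15 : (2 + N0 + N0 + c0 + c1 + 1) * Nat.size n ≤ φ n * Nat.size n :=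
    Nat.mul_le_mul_right _ hn.2
  have h16 : (2 + N0 + N0 + c0 + c1 + 1) * Nat.size n =
      2 * Nat.size n + N0 * Nat.size n + (N0 + c0 + c1 + 1) * Nat.size n := by ring
  have h17 : N0 + c0 + c1 + 1 ≤ (N0 + c0 + c1 + 1) * Nat.size n :=
    Nat.le_mul_of_pos_right _ hs1
  omega

end Pool.Agent.H613R2.OLow
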