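import Mathlib
import Pool.Agent.Helper760.OracleSim4
import Pool.Agent.H613R2.OSimC

set_option autoImplicit false

namespace Pool.Agent.H613R2.OSim

open Pool.Agent.Helper760.Kolm Pool.Agent.Helper760.OracleNF Pool.Agent.Helper760.OracleC
open Encodable

/-- Simulation where only programs of length at most `m` are treated. -/
theorem simulate2 (X : ℕ → Bool) (D : List Bool → List Bool →. List Bool) (hD : OptimalCond D)
    (V : List Bool →. List Bool) (hV : OptimalIn X V) :
    ∃ c : ℕ, ∀ n m : ℕ, m ≤ n → ∃ x : List Bool, x.length = (2 * n + 4) * 2 ^ (m + 2) ∧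
      ∀ s : List Bool, s.length ≤ n →
        condC D s x ≤ oracleC V s + (4 * Nat.size n + (n - m) + c) ∧
        oracleC V s ≤ condC D s x + (4 * Nat.size n + (n - m) + c) := by
  classical
  obtain ⟨F, hF0, hF1, hF2⟩ := exists_stepped (f := fun a : List Bool × List Bool => D a.1 a.2) hD.1
  set g : ℕ → ℕ := fun n => (X n).toNat with hg
  have hgX : (g : ℕ →. ℕ) = oracleFn X := rfl
  obtain ⟨Fv, hFv0, hFv1, hFv2⟩ := normal_form g _ (by rw [hgX]; exact hV.1)
  set G : List ℕ → List Bool → Option (List Bool) := fun σ p => (Fv σ (encode p)).bind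
    (fun m => decode (α := List Bool) m) with hG
  have hG0 : Primrec₂ G :=
    Primrec.option_bind (hFv0.comp Primrec.fst (Primrec.encode.comp Primrec.snd))
      (Primrec.decode.comp Primrec.snd)
  have hG1 : ∀ p s, s ∈ V p ↔ ∃ k, G (pre g k) p = some s := by
    intro p s
    have h1 : ∀ m, m ∈ (Part.bind (decode (α := List Bool) (encode p) : Option (List Bool))
        fun a => (V a).map encode) ↔ ∃ s' ∈ V p, encode s' = m := by
      intro m
      rw [encodek]
      simp
    constructor
    · intro hs
      obtain ⟨k, hk⟩ := (hFv2 (encode p) (encode s)).1 ((h1 _).2 ⟨s, hs, rfl⟩)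
      refine ⟨k, ?_⟩
      simp only [hG, hk, Option.bind_some, encodek]
    · rintro ⟨k, hk⟩
      simp only [hG, Option.bind_eq_some_iff] at hk
      obtain ⟨m, hm, hd⟩ := hk
      obtain ⟨s', hs', rfl⟩ := (h1 m).1 ((hFv2 (encode p) m).2 ⟨k, hm⟩)
      rw [encodek] at hd
      simp only [Option.some.injEq] at hd
      subst hd
      exact hs'
  have hG2 : ∀ k k' p s, k ≤ k' → G (pre g k) p = some s → G (pre g k') p = some s := by
    intro k k' p s hkk h
    simp only [hG, Option.bind_eq_some_iff] at h ⊢
    obtain ⟨m, hm, hd⟩ := h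
    exact ⟨m, hFv1 _ _ _ _ (pre_le g hkk) hm, hd⟩
  have hcore := fun n => core (D := D) (V := V) (F := F) (G := G) (g := g)
    (fun a s => hF1 a s) hF2 hG1 hG2 n
  -- the parameters stored in front of a program
  have hpar : Primrec (fun q : List Bool => ((numOf q, numOf (restOf q)) : P2)) :=
    Primrec.pair primrec_numOf (primrec_numOf.comp primrec_restOf)
  have hrest : Primrec (fun q : List Bool => restOf (restOf q)) :=
    primrec_restOf.comp primrec_restOf
  -- the decoder with the condition
  obtain ⟨c1, hc1⟩ := hD.2 (fun q y =>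
      Nat.rfindOpt (fun k => look false (restOf (restOf q))
        (tr F (numOf q, numOf (restOf q)) y k).2)) (by
    refine Partrec.rfindOpt ?_
    have h1 : Primrec (fun z : (List Bool × List Bool) × ℕ =>
        (tr F (numOf z.1.1, numOf (restOf z.1.1)) z.1.2 z.2).2) :=
      Primrec.snd.comp ((primrec_tr hF0).comp (Primrec.pair
        (hpar.comp (Primrec.fst.comp Primrec.fst)) (Primrec.snd.comp Primrec.fst))
        Primrec.snd)
    have h2 : Primrec (fun z : (List Bool × List Bool) × ℕ => restOf (restOf z.1.1)) :=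
      hrest.comp (Primrec.fst.comp Primrec.fst)
    have h3 : Primrec (fun z : (List Bool × List Bool) × ℕ =>
        look false (restOf (restOf z.1.1))
          (tr F (numOf z.1.1, numOf (restOf z.1.1)) z.1.2 z.2).2) :=
      primrec_look.comp (Primrec.pair (Primrec.const false) (Primrec.pair h2 h1))
    exact h3.to_comp.to₂)
  -- the decoder with the oracle
  obtain ⟨c2, hc2⟩ := hV.2 (fun q =>
      Nat.rfindOpt (fun k => look true (restOf (restOf q))
        (runS F G (numOf q, numOf (restOf q)) (pre g k)).2)) (by
    have h1 : Primrec (fun z : List ℕ × List Bool =>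
        (runS F G (numOf z.2, numOf (restOf z.2)) z.1).2) :=
      Primrec.snd.comp ((primrec_runS hF0 hG0).comp (hpar.comp Primrec.snd) Primrec.fst)
    have h3 : Primrec₂ (fun (σ : List ℕ) (q : List Bool) =>
        look true (restOf (restOf q)) (runS F G (numOf q, numOf (restOf q)) σ).2) :=
      primrec_look.comp (Primrec.pair (Primrec.const true)
        (Primrec.pair (hrest.comp Primrec.snd) h1))
    exact recIn_of_stepped g h3)
  obtain ⟨c3, hc3⟩ := condC_triv hD
  obtain ⟨c4, hc4⟩ := oracleC_triv hV
  refine ⟨c1 + c2 + c3 + c4 + 2, ?_⟩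
  intro n m hmn
  obtain ⟨x, hx1, hx2, hx3⟩ := hcore (n, m) hmn
  refine ⟨x, hx1, ?_⟩
  intro s hs
  have hsz : Nat.size m ≤ Nat.size n := Nat.size_le_size hmn
  constructor
  · obtain ⟨π, hπ, hπl⟩ := oracleC_spec hV s
    by_cases hlen : π.length ≤ m
    · have h1 := hx2 π s hlen hs hπ
      obtain ⟨q, hq, hql⟩ := hc1 (putNum n (putNum m π)) x s (by
        simp only [numOf_putNum, restOf_putNum]
        exact h1)
      have h2 := condC_le s x q hq
      rw [length_putNum, length_putNum] at hql
      omega
    · have := hc3 s x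
      omega
  · obtain ⟨p, hp, hpl⟩ := condC_spec hD s x
    by_cases hlen : p.length ≤ m
    · have h1 := hx3 p s hlen hs hp
      obtain ⟨q, hq, hql⟩ := hc2 (putNum n (putNum m p)) s (by
        simp only [numOf_putNum, restOf_putNum, runS_pre]
        exact h1)
      have h2 := oracleC_le s q hq
      rw [length_putNum, length_putNum] at hql
      omega
    · have := hc4 s
      omega

end Pool.Agent.H613R2.OSim
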